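import Pool.Agent.Helper13.Un.DIFF

set_option autoImplicit false

/-!
# Module MP : invariance of the hyperbolic measure
-/

namespace Pool.Agent.Helper19.Un

open MeasureTheory Topology
open scoped ComplexConjugate

variable {m : ℕ}

/-! ### unitary transformations have determinant of absolute value one -/

theorem mp_herm_zero_left (y : V m) : herm 0 y = 0 := by
  have := herm_smul_left 0 0 y
  simpa using this

theorem mp_herm_zero_right (x : V m) : herm x 0 = 0 := by
  have := herm_smul_right 0 x 0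
  simpa using this

theorem mp_herm_sum_left {ι : Type} (s : Finset ι) (f : ι → V m) (y : V m) :
    herm (∑ i ∈ s, f i) y = ∑ i ∈ s, herm (f i) y := by
  classical
  induction s using Finset.induction_on with
  | empty => simp [mp_herm_zero_left]
  | insert a s ha ih => rw [Finset.sum_insert ha, Finset.sum_insert ha, herm_add_left, ih]

theorem mp_herm_sum_right {ι : Type} (s : Finset ι) (x : V m) (f : ι → V m) :
    herm x (∑ i ∈ s, f i) = ∑ i ∈ s, herm x (f i) := by
  classical
  induction s using Finset.induction_on with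
  | empty => simp [mp_herm_zero_right]
  | insert a s ha ih => rw [Finset.sum_insert ha, Finset.sum_insert ha, herm_add_right, ih]

theorem mp_nondeg {u : V m} (h : ∀ x : V m, herm x u = 0) : u = 0 := by
  have h1 := h (1, 0, 0)
  have h2 := h (0, u.2.1, 0)
  have h3 := h (0, 0, 1)
  simp only [herm, one_mul, zero_mul, inner_zero_right, add_zero, zero_add, map_eq_zero] at h1 h2 h3
  rw [inner_self_eq_zero] at h2
  exact Prod.ext h3 (Prod.ext h2 h1)

theorem mp_det_unit {g : V m ≃ₗ[ℂ] V m} (hg : g ∈ UG m) :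
    Complex.normSq (LinearMap.det (g : V m →ₗ[ℂ] V m)) = 1 := by
  classical
  set b := Module.finBasis ℂ (V m) with hb
  set G : Matrix (Fin (Module.finrank ℂ (V m))) (Fin (Module.finrank ℂ (V m))) ℂ :=
    LinearMap.toMatrix b b (g : V m →ₗ[ℂ] V m) with hG
  set Hm : Matrix (Fin (Module.finrank ℂ (V m))) (Fin (Module.finrank ℂ (V m))) ℂ :=
    Matrix.of fun i j => herm (b i) (b j) with hHm
  have hgb : ∀ i, g (b i) = ∑ k, G k i • b k := by
    intro i
    have h1 := (b.sum_repr (g (b i))).symm
    have h2 : ∀ k, G k i = b.repr (g (b i)) k := by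
      intro k
      rw [hG, LinearMap.toMatrix_apply]
      rfl
    simp only [h2]
    exact h1
  have hmat : G.transpose * Hm * G.map (starRingEnd ℂ) = Hm := by
    ext i j
    have h1 : herm (g (b i)) (g (b j)) = herm (b i) (b j) := hg _ _
    rw [hgb i, hgb j, mp_herm_sum_left] at h1
    rw [Matrix.mul_apply]
    have h2 : Hm i j = herm (b i) (b j) := rfl
    rw [h2, ← h1]
    have h3 : ∀ k, herm (G k i • b k) (∑ l, G l j • b l)
        = ∑ l, G k i * (conj (G l j) * herm (b k) (b l)) := by
      intro k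
      rw [herm_smul_left, mp_herm_sum_right, Finset.mul_sum]
      apply Finset.sum_congr rfl
      intro l _
      rw [herm_smul_right]
    simp only [h3]
    rw [Finset.sum_comm]
    apply Finset.sum_congr rfl
    intro l _
    rw [Matrix.mul_apply, Finset.sum_mul]
    apply Finset.sum_congr rfl
    intro k _
    have h4 : Hm k l = herm (b k) (b l) := rfl
    rw [Matrix.transpose_apply, Matrix.map_apply, h4]
    ring
  have hdet : G.det * conj G.det * Hm.det = Hm.det := by
    have h1 := congrArg Matrix.det hmat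
    rw [Matrix.det_mul, Matrix.det_mul, Matrix.det_transpose] at h1
    have h2 : (G.map (starRingEnd ℂ)).det = conj G.det := by
      rw [RingHom.map_det]
      rfl
    rw [h2] at h1
    linear_combination h1
  have hne : Hm.det ≠ 0 := by
    intro h0
    obtain ⟨v, hv0, hv⟩ := Matrix.exists_mulVec_eq_zero_iff.mpr h0
    apply hv0
    set u : V m := ∑ j, conj (v j) • b j with hu
    have h1 : ∀ i, herm (b i) u = 0 := by
      intro i
      rw [hu, mp_herm_sum_right]
      have h2 := congrFun hv i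
      rw [Matrix.mulVec, dotProduct] at h2
      rw [Pi.zero_apply] at h2
      rw [← h2]
      apply Finset.sum_congr rfl
      intro j _
      rw [herm_smul_right, Complex.conj_conj]
      have h3 : Hm i j = herm (b i) (b j) := rfl
      rw [h3]
      ring
    have h4 : ∀ x : V m, herm x u = 0 := by
      intro x
      rw [← b.sum_repr x, mp_herm_sum_left]
      apply Finset.sum_eq_zero
      intro i _
      rw [herm_smul_left, h1, mul_zero]
    have h5 : u = 0 := mp_nondeg h4
    funext j
    have h6 : b.repr u j = conj (v j) := by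
      rw [hu, map_sum, Finset.sum_apply']
      rw [Finset.sum_eq_single j]
      · simp
      · intro k _ hk
        simp [hk]
      · simp
    rw [h5] at h6
    simp only [map_zero, Finsupp.coe_zero, Pi.zero_apply] at h6
    have h7 : v j = 0 := by
      rw [← map_eq_zero (starRingEnd ℂ)]
      exact h6.symm
    exact h7
  have h1 : G.det * conj G.det = 1 := by
    have h2 : (G.det * conj G.det - 1) * Hm.det = 0 := by linear_combination hdet
    rcases mul_eq_zero.mp h2 with h | h
    · linear_combination h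
    · exact absurd h hne
  have h3 : LinearMap.det (g : V m →ₗ[ℂ] V m) = G.det := (LinearMap.det_toMatrix b _).symm
  rw [h3]
  rw [Complex.mul_conj] at h1
  exact_mod_cast h1

/-! ### derivative of the action -/

/-- the first two coordinates of the linear part -/
noncomputable def mp_P (g : V m ≃ₗ[ℂ] V m) : Pt m →ₗ[ℂ] Pt m where
  toFun v := ((g (v.1, v.2, 0)).1, (g (v.1, v.2, 0)).2.1)
  map_add' v w := by
    have : ((v.1 + w.1, v.2 + w.2, 0) : V m) = (v.1, v.2, 0) + (w.1, w.2, 0) := by simp
    simp only [Prod.fst_add, Prod.snd_add, this, map_add]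
    rfl
  map_smul' c v := by
    have : ((c * v.1, c • v.2, 0) : V m) = c • (v.1, v.2, 0) := by simp
    simp only [Prod.smul_fst, Prod.smul_snd, smul_eq_mul, this, map_smul, RingHom.id_apply]
    rfl

/-- the third coordinate of the linear part -/
noncomputable def mp_l (g : V m ≃ₗ[ℂ] V m) : Pt m →ₗ[ℂ] ℂ where
  toFun v := (g (v.1, v.2, 0)).2.2
  map_add' v w := by
    have : ((v.1 + w.1, v.2 + w.2, 0) : V m) = (v.1, v.2, 0) + (w.1, w.2, 0) := by simp
    simp only [Prod.fst_add, Prod.snd_add, this, map_add]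
  map_smul' c v := by
    have : ((c * v.1, c • v.2, 0) : V m) = c • (v.1, v.2, 0) := by simp
    simp only [Prod.smul_fst, Prod.smul_snd, smul_eq_mul, this, map_smul, RingHom.id_apply]

theorem mp_vec (g : V m ≃ₗ[ℂ] V m) (p : Pt m) :
    g (vec p) = g (p.1, p.2, 0) + g (0, 0, 1) := by
  rw [← map_add]
  congr 1
  simp [vec]

/-- the derivative of the action -/
noncomputable def mp_J (g : V m ≃ₗ[ℂ] V m) (p : Pt m) : Pt m →ₗ[ℂ] Pt m :=
  ((g (vec p)).2.2)⁻¹ • (mp_P g - (mp_l g).smulRight (act g p))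

theorem mp_hasFDerivAtC (g : V m ≃ₗ[ℂ] V m) {p : Pt m} (h : (g (vec p)).2.2 ≠ 0) :
    HasFDerivAt (act g) (LinearMap.toContinuousLinearMap (mp_J g p)) p := by
  have hP : HasFDerivAt (fun q : Pt m => (((g (vec q)).1, (g (vec q)).2.1) : Pt m))
      (LinearMap.toContinuousLinearMap (mp_P g)) p := by
    have h1 : (fun q : Pt m => (((g (vec q)).1, (g (vec q)).2.1) : Pt m))
        = fun q => LinearMap.toContinuousLinearMap (mp_P g) q
          + ((g ((0 : ℂ), (0 : E m), (1 : ℂ))).1, (g ((0 : ℂ), (0 : E m), (1 : ℂ))).2.1) := by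
      funext q
      rw [mp_vec]
      rfl
    rw [h1]
    exact (LinearMap.toContinuousLinearMap (mp_P g)).hasFDerivAt.add_const _
  have hl : HasFDerivAt (fun q : Pt m => (g (vec q)).2.2)
      (LinearMap.toContinuousLinearMap (mp_l g)) p := by
    have h1 : (fun q : Pt m => (g (vec q)).2.2)
        = fun q => LinearMap.toContinuousLinearMap (mp_l g) q
          + (g ((0 : ℂ), (0 : E m), (1 : ℂ))).2.2 := by
      funext q
      rw [mp_vec]
      rfl
    rw [h1]
    exact (LinearMap.toContinuousLinearMap (mp_l g)).hasFDerivAt.add_const _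
  have hI : HasFDerivAt (fun q : Pt m => ((g (vec q)).2.2)⁻¹)
      (-(((g (vec p)).2.2) ^ 2)⁻¹ • (LinearMap.toContinuousLinearMap (mp_l g))) p :=
    (hasDerivAt_inv h).comp_hasFDerivAt p hl
  have h3 := hI.smul hP
  have h4 : (fun q : Pt m => ((g (vec q)).2.2)⁻¹ • (((g (vec q)).1, (g (vec q)).2.1) : Pt m))
      = act g := by
    funext q
    unfold act pnt
    refine Prod.ext ?_ ?_
    · simp only [Prod.smul_fst, smul_eq_mul]
      rw [div_eq_mul_inv, mul_comm]
    · simp only [Prod.smul_snd]
      rw [one_div]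
  have h5 : (fun q : Pt m => ((g (vec q)).2.2)⁻¹) • (fun q : Pt m =>
      (((g (vec q)).1, (g (vec q)).2.1) : Pt m)) = act g := h4
  rw [h5] at h3
  refine h3.congr_fderiv ?_
  have hact : act g p = ((g (vec p)).2.2)⁻¹ • (((g (vec p)).1, (g (vec p)).2.1) : Pt m) :=
    (congrFun h4 p).symm
  apply ContinuousLinearMap.ext
  intro v
  have e1 : LinearMap.toContinuousLinearMap (mp_J g p) v
      = ((g (vec p)).2.2)⁻¹ • (mp_P g v - (mp_l g v) • act g p) := rfl
  rw [e1, hact]
  simp only [add_apply, smul_apply,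
    ContinuousLinearMap.smulRight_apply, LinearMap.coe_toContinuousLinearMap', smul_sub,
    smul_smul, smul_eq_mul]
  rw [sub_eq_add_neg, ← neg_smul]
  congr 2
  field_simp

theorem mp_det {g : V m ≃ₗ[ℂ] V m} (hg : g ∈ UG m) {p : Pt m} (hp : p ∈ SD m) :
    (g (vec p)).2.2 ^ (m + 2) * LinearMap.det (mp_J g p)
      = LinearMap.det (g : V m →ₗ[ℂ] V m) := by
  have hx := x3_ne hg hp
  set x := (g (vec p)).2.2 with hxdef
  set e : V m ≃ₗ[ℂ] (Pt m × ℂ) := (LinearEquiv.prodAssoc ℂ ℂ (E m) ℂ).symm with he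
  set G : (Pt m × ℂ) →ₗ[ℂ] (Pt m × ℂ) :=
    (e : V m →ₗ[ℂ] (Pt m × ℂ)) ∘ₗ (g : V m →ₗ[ℂ] V m) ∘ₗ (e.symm : (Pt m × ℂ) →ₗ[ℂ] V m) with hG
  have hdG : LinearMap.det G = LinearMap.det (g : V m →ₗ[ℂ] V m) :=
    LinearMap.det_conj (g : V m →ₗ[ℂ] V m) e
  set A1 : (Pt m × ℂ) →ₗ[ℂ] (Pt m × ℂ) :=
    LinearMap.transvection (LinearMap.snd ℂ (Pt m) ℂ) ((-(act g p), 0) : Pt m × ℂ) with hA1
  set A2 : (Pt m × ℂ) →ₗ[ℂ] (Pt m × ℂ) :=
    LinearMap.transvection (LinearMap.snd ℂ (Pt m) ℂ) ((p, 0) : Pt m × ℂ) with hA2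
  set A3 : (Pt m × ℂ) →ₗ[ℂ] (Pt m × ℂ) :=
    LinearMap.transvection (x⁻¹ • ((mp_l g) ∘ₗ (LinearMap.fst ℂ (Pt m) ℂ))) ((0, 1) : Pt m × ℂ)
    with hA3
  have d1 : LinearMap.det A1 = 1 := by
    rw [hA1, LinearMap.transvection.det]
    simp
  have d2 : LinearMap.det A2 = 1 := by
    rw [hA2, LinearMap.transvection.det]
    simp
  have d3 : LinearMap.det A3 = 1 := by
    rw [hA3, LinearMap.transvection.det]
    simp
  have hB : A1 ∘ₗ G ∘ₗ A2 = (LinearMap.prodMap (x • mp_J g p) (x • LinearMap.id)) ∘ₗ A3 := by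
    apply LinearMap.ext
    rintro ⟨v, c⟩
    have e2 : A2 (v, c) = (v + c • p, c) := by
      rw [hA2, LinearMap.transvection.apply]
      simp
    have e3 : A3 (v, c) = (v, c + x⁻¹ * mp_l g v) := by
      rw [hA3, LinearMap.transvection.apply]
      simp
    have e4 : ∀ w : Pt m, ∀ d : ℂ, G (w, d) = (mp_P g w, mp_l g w) + d • G (0, 1) := by
      intro w d
      have h1 : ((w, d) : Pt m × ℂ) = (w, 0) + d • (0, 1) := by simp
      rw [h1, map_add, map_smul]
      rfl
    have e5 : mp_P g p + (G (0, 1)).1 = x • act g p := by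
      have h1 : G (p, 1) = (x • act g p, x) := by
        have h2 : G (p, 1) = (((g (vec p)).1, (g (vec p)).2.1), (g (vec p)).2.2) := rfl
        have h3 := vec_act hg hp
        rw [h2]
        refine Prod.ext (Prod.ext ?_ ?_) rfl
        · exact congrArg (fun y : V m => y.1) h3
        · exact congrArg (fun y : V m => y.2.1) h3
      have h4 := e4 p 1
      rw [h1, one_smul] at h4
      exact (congrArg Prod.fst h4).symm
    have e6 : mp_l g p + (G (0, 1)).2 = x := by
      have h2 : (G (p, 1)).2 = x := rfl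
      have h4 := congrArg Prod.snd (e4 p 1)
      rw [one_smul, h2] at h4
      exact h4.symm
    have e7 : G (v + c • p, c) = (mp_P g v + (c * x) • act g p, mp_l g v + c * x) := by
      rw [e4]
      refine Prod.ext ?_ ?_
      · change mp_P g (v + c • p) + c • (G (0, 1)).1 = _
        rw [map_add, map_smul, add_assoc, ← smul_add, e5, smul_smul]
      · change mp_l g (v + c • p) + c • (G (0, 1)).2 = _
        rw [map_add, map_smul, add_assoc, ← smul_add, e6]
        rfl
    change A1 (G (A2 (v, c)))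
      = (LinearMap.prodMap (x • mp_J g p) (x • LinearMap.id)) (A3 (v, c))
    rw [e2, e3, e7, hA1, LinearMap.transvection.apply]
    refine Prod.ext ?_ ?_
    · simp only [LinearMap.snd_apply, Prod.fst_add, Prod.smul_fst, LinearMap.prodMap_apply,
        LinearMap.smul_apply]
      have h8 : mp_J g p v = x⁻¹ • (mp_P g v - (mp_l g v) • act g p) := rfl
      rw [h8, smul_smul, mul_inv_cancel₀ hx, one_smul, add_smul]
      simp only [smul_neg]
      abel
    · simp only [LinearMap.snd_apply, Prod.snd_add, Prod.smul_snd, LinearMap.prodMap_apply,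
        LinearMap.smul_apply, LinearMap.id_coe, id_eq, smul_eq_mul]
      field_simp
      ring
  have hdet := congrArg LinearMap.det hB
  rw [LinearMap.det_comp, LinearMap.det_comp, LinearMap.det_comp, d1, d2, d3, hdG,
    LinearMap.det_prodMap, LinearMap.det_smul, LinearMap.det_smul, LinearMap.det_id] at hdet
  have hf1 : Module.finrank ℂ (Pt m) = m + 1 := by
    rw [Module.finrank_prod, Module.finrank_self, finrank_euclideanSpace, Fintype.card_fin]
    ring
  rw [hf1, Module.finrank_self] at hdet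
  rw [one_mul, mul_one, mul_one] at hdet
  rw [hdet]
  ring

theorem mp_det_real {g : V m ≃ₗ[ℂ] V m} (hg : g ∈ UG m) {p : Pt m} (hp : p ∈ SD m) :
    |((LinearMap.toContinuousLinearMap (mp_J g p)).restrictScalars ℝ).det|
      = (hgt (act g p) / hgt p) ^ (m + 2) := by
  have hp' : 0 < hgt p := hp
  have h1 : ((LinearMap.toContinuousLinearMap (mp_J g p)).restrictScalars ℝ).det
      = Complex.normSq (LinearMap.det (mp_J g p)) := by
    have h2 : ((LinearMap.toContinuousLinearMap (mp_J g p)).restrictScalars ℝ).det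
        = LinearMap.det ((mp_J g p).restrictScalars ℝ) := rfl
    rw [h2, LinearMap.det_restrictScalars, Algebra.norm_complex_apply]
  have h3 := congrArg Complex.normSq (mp_det hg hp)
  rw [mp_det_unit hg, Complex.normSq_mul, map_pow] at h3
  have hx := x3_ne hg hp
  have hx2 : Complex.normSq (g (vec p)).2.2 = ‖(g (vec p)).2.2‖ ^ 2 :=
    Complex.normSq_eq_norm_sq _
  have hx0 : (0 : ℝ) < ‖(g (vec p)).2.2‖ ^ 2 := pow_pos (norm_pos_iff.2 hx) 2
  rw [h1, abs_of_nonneg (Complex.normSq_nonneg _), hgt_act hg hp]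
  rw [hx2] at h3
  have h4 : hgt p / ‖(g (vec p)).2.2‖ ^ 2 / hgt p = (‖(g (vec p)).2.2‖ ^ 2)⁻¹ := by
    field_simp
  rw [h4, inv_pow]
  apply eq_inv_of_mul_eq_one_left
  rw [mul_comm]
  exact h3

theorem mp_hasFDerivAt {g : V m ≃ₗ[ℂ] V m} (hg : g ∈ UG m) {p : Pt m} (hp : p ∈ SD m) :
    HasFDerivAt (act g)
      ((LinearMap.toContinuousLinearMap (mp_J g p)).restrictScalars ℝ) p :=
  (mp_hasFDerivAtC g (x3_ne hg hp)).restrictScalars ℝ

theorem mp_image_SD {g : V m ≃ₗ[ℂ] V m} (hg : g ∈ UG m) : act g '' SD m = SD m := by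
  apply Set.Subset.antisymm
  · rintro _ ⟨p, hp, rfl⟩
    exact act_mem hg hp
  · intro q hq
    exact ⟨act g⁻¹ q, act_mem ((UG m).inv_mem hg) hq, act_act_inv hg hq⟩

theorem mp_injOn {g : V m ≃ₗ[ℂ] V m} (hg : g ∈ UG m) : Set.InjOn (act g) (SD m) := by
  intro p hp q hq h
  rw [← act_inv_act hg hp, h, act_inv_act hg hq]

theorem mp_hyp_apply {s : Set (Pt m)} (hs : MeasurableSet s) :
    hyp m s = ∫⁻ p in SD m, s.indicator (fun p => ENNReal.ofReal ((hgt p ^ (m + 2))⁻¹)) p := by
  rw [hyp, withDensity_apply _ hs, ← lintegral_indicator hs]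

theorem st_MP : ST_MP := by
  intro m g hg
  have hme : Measurable (act g) := st_ME m g
  refine ⟨hme, ?_⟩
  have : (volume : Measure (Pt m)).IsAddHaarMeasure := by
    rw [Measure.volume_eq_prod]; infer_instance
  ext s hs
  rw [Measure.map_apply hme hs, mp_hyp_apply hs, mp_hyp_apply (hme hs)]
  conv_rhs => rw [← mp_image_SD hg]
  rw [lintegral_image_eq_lintegral_abs_det_fderiv_mul volume measurableSet_SD
    (fun p hp => (mp_hasFDerivAt hg hp).hasFDerivWithinAt) (mp_injOn hg)]
  refine setLIntegral_congr_fun measurableSet_SD fun p hp => ?_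
  have hp' : 0 < hgt p := hp
  have hq' : 0 < hgt (act g p) := act_mem hg hp
  rw [mp_det_real hg hp]
  by_cases h : act g p ∈ s
  · rw [Set.indicator_of_mem h, Set.indicator_of_mem (show p ∈ act g ⁻¹' s from h),
      ← ENNReal.ofReal_mul (by positivity)]
    congr 1
    rw [div_pow]
    field_simp
  · rw [Set.indicator_of_notMem h, Set.indicator_of_notMem (show p ∉ act g ⁻¹' s from h),
      mul_zero]

end Pool.Agent.Helper19.Un
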